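import Mathlib
import Pool.Agent.Q209.Gal
import Pool.Agent.Q209.GCH

/-!
# Under GCH every regular uncountable cardinal carries a κ-complete filter without the Galvin property

Let `κ` be a regular uncountable cardinal. If `κ^{<κ} = κ` (in particular under GCH), there is a
proper `κ`-complete filter `F` over `κ`, containing all clubs, and `2^κ` distinct members `B X` of
`F` such that the intersection of any `κ` of them is not only not in `F`, but null: its complement
is in `F`. So `F` does not have the Galvin property, in a strong sense. More generally, every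
`κ`-complete filter with `κ` pairwise disjoint positive sets extends to such a filter `F`.

Idea: there is a family of `2^κ` subsets of `κ` such that any boolean combination of fewer than `κ`
of them is nonempty, and one can make these boolean combinations positive. The filter is generated
by the members of the family and the complements of all intersections of `κ` members of the family.
-/

set_option autoImplicit false

namespace Pool.Agent.Results.MP_45cf3b_lc.NullIntersections

open Cardinal Set

universe u

/-- GCH, for all cardinals of the universe `u`. -/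
def GCH : Prop := ∀ μ : Cardinal.{u}, ℵ₀ ≤ μ → 2 ^ μ = Order.succ μ

/-- The filter `F` over the cardinal `κ` has the Galvin property: for every sequence of `κ⁺`
members of `F` there is a set of `κ` many indices with intersection in `F`. -/
def Galvin (κ : Cardinal.{u}) (F : Filter κ.ord.ToType) : Prop :=
  ∀ A : (Order.succ κ).ord.ToType → Set κ.ord.ToType, (∀ i, A i ∈ F) →
    ∃ I : Set (Order.succ κ).ord.ToType, #I = κ ∧ ⋂ i ∈ I, A i ∈ F

/-- The filter `F` over the cardinal `κ` is `κ`-complete: the intersection of fewer than `κ`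
members of `F` is a member of `F`. -/
def Complete (κ : Cardinal.{u}) (F : Filter κ.ord.ToType) : Prop :=
  ∀ S : Set (Set κ.ord.ToType), #S < κ → (∀ s ∈ S, s ∈ F) → ⋂₀ S ∈ F

/-- There are `κ` pairwise disjoint `G`-positive sets (sets whose complement is not in `G`). -/
def ManyPositive (κ : Cardinal.{u}) (G : Filter κ.ord.ToType) : Prop :=
  ∃ P : κ.ord.ToType → Set κ.ord.ToType, (∀ a, (P a)ᶜ ∉ G) ∧
    ∀ a b, a ≠ b → Disjoint (P a) (P b)

/-- There are `2^κ` distinct members of `F` such that the intersection of any `κ` (or more) of them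
is null, that is, its complement is in `F`. -/
def NullFamily (κ : Cardinal.{u}) (F : Filter κ.ord.ToType) : Prop :=
  ∃ B : Set κ.ord.ToType → Set κ.ord.ToType, Function.Injective B ∧ (∀ X, B X ∈ F) ∧
    ∀ I : Set (Set κ.ord.ToType), κ ≤ #I → (⋂ X ∈ I, B X)ᶜ ∈ F

/-- A proper filter with a null family does not have the Galvin property. -/
theorem not_galvin {κ : Cardinal.{u}} {F : Filter κ.ord.ToType}
    (hne : F.NeBot) (hF : NullFamily κ F) : ¬ Galvin κ F := by
  obtain ⟨B, -, hB, hI⟩ := hF
  intro hG
  have hle : #((Order.succ κ).ord.ToType) ≤ #(Set κ.ord.ToType) := by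
    rw [Cardinal.mk_toType, card_ord, mk_set, Cardinal.mk_toType, card_ord]
    exact Order.succ_le_of_lt (cantor κ)
  obtain ⟨e⟩ := hle
  obtain ⟨I, hIκ, hIF⟩ := hG (fun i => B (e i)) (fun i => hB _)
  have h1 : κ ≤ #(e '' I) := by rw [mk_image_eq e.injective]; exact hIκ.ge
  have h2 := hI _ h1
  rw [biInter_image] at h2
  have h3 := Filter.inter_mem hIF h2
  rw [inter_compl_self] at h3
  exact hne.ne (Filter.empty_mem_iff_bot.1 h3)

theorem result :
    -- under GCH, every regular uncountable cardinal carries a filter as asked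
    (GCH.{u} → ∀ κ : Cardinal.{u}, κ.IsRegular → ℵ₀ < κ →
      ∃ F : Filter κ.ord.ToType, F.NeBot ∧ Complete κ F ∧ (∀ C, IsClub C → C ∈ F) ∧
        NullFamily κ F ∧ ¬ Galvin κ F) ∧
    -- `κ^{<κ} = κ` is enough, and every suitable filter extends
    (∀ κ : Cardinal.{u}, κ.IsRegular → κ ^< κ = κ →
      ∀ G : Filter κ.ord.ToType, Complete κ G → ManyPositive κ G →
        ∃ F : Filter κ.ord.ToType, F ≤ G ∧ F.NeBot ∧ Complete κ F ∧ NullFamily κ F ∧
          ¬ Galvin κ F) := by
  have gen : ∀ κ : Cardinal.{u}, κ.IsRegular → κ ^< κ = κ →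
      ∀ G : Filter κ.ord.ToType, Complete κ G → ManyPositive κ G →
        ∃ F : Filter κ.ord.ToType, F ≤ G ∧ F.NeBot ∧ Complete κ F ∧ NullFamily κ F ∧
          ¬ Galvin κ F := by
    rintro κ hκ hp G hG ⟨P, hP, hPd⟩
    obtain ⟨F, h1, h2, h3, h4⟩ := Q209.Gal.nmain hκ hp G hG P hP hPd
    exact ⟨F, h1, h2, h3, h4, not_galvin h2 h4⟩
  refine ⟨fun hGCH κ hκ hω => ?_, gen⟩
  have hp : κ ^< κ = κ := Q209.powerlt_self_of_gch hGCH hκ hω
  obtain ⟨F, h1, h2, h3, h4, h5⟩ := gen κ hκ hp (Pool.Agent.Y671.GV.clubOn hκ hω univ)
    (Pool.Agent.Y671.GV.clubOn_complete hκ hω univ)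
    (Pool.Agent.Y671.GV.clubOn_positive hκ hω univ (by
      rw [Set.univ_inter]
      exact Pool.Agent.Y671.GV.stationary_E hκ hω))
  exact ⟨F, h2, h3, fun C hC => h1 ⟨C, hC, inter_subset_left⟩, h4, h5⟩

end Pool.Agent.Results.MP_45cf3b_lc.NullIntersections
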